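import Pool.Agent.Helper21_TS.Main

/-!
The complexity of the cyclic group of order `p^n q^m` equals `F n m` for all distinct primes `p`, `q`
and all `n ≥ m ≥ 2`.
-/

namespace Pool.Agent.Results.MP_0ca1b9_co.Complexity

open Pool.Agent.Helper21TS

universe u

/-- Full answer to Q1: for all distinct primes `p`, `q`, all `n ≥ m ≥ 2` and every cyclic group `G`
of order `p^n q^m`, the complexity of `G` is `F n m`. -/
theorem result (p q : ℕ) (hp : p.Prime) (hq : q.Prime) (hpq : p ≠ q) (n m : ℕ)
    (hm : 2 ≤ m) (hmn : m ≤ n) (G : Type u) [Group G] [IsCyclic G]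
    (hG : Nat.card G = p ^ n * q ^ m) : IsComplexity G (F n m) :=
  complexity_eq p q hp hq hpq n m hm hmn G hG

end Pool.Agent.Results.MP_0ca1b9_co.Complexity
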